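import Pool.Agent.K9h7.SH.LowC

/-!
# Steiner systems of strength `r` have more than `(q - r) ^ (H_r - ε)` points

Let `H_r = 1 + 1/2 + ... + 1/r`. For `r ≥ 26` and `ε > 0` all Steiner systems `S(n,q,r)` with
`n > q` and `q - r` sufficiently large have `n > (q - r) ^ (H_r - ε)` points. For all `r` this
is proved for the exponent `H_r - 3/5`.

Proof. Let `a = q - r`, `b = n - q ≤ a ^ ν`, `ν < H_R`, `R ≤ r`. By (D), `a + k` has
coprime divisors `D(k,i)`, `0 ≤ i < k`, whose product is about `a`, such that `D(k,i)` divides
`b - i`. By Cauchy's inequality the sum of the squares of the `log D(k,i) / log a`, `k ≤ R`, is at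
least `H_R - o(1) > ν`, and an auxiliary polynomial which vanishes to high order at the points
`(-k, i)` shows that `(a,b)` is on one of finitely many irreducible curves `G = 0`.

Suppose that `G` has such points for arbitrarily large `a`; let `δ` be its degree in `y` and
`μ(k,i)` its multiplicity at `(-k,i)`. Auxiliary polynomials modulo `G` show that
`log D(k,i) = (μ(k,i) / δ + o(1)) log a`, that the `μ(k,i)` with a given `k` add up to `δ`, and that
the sum of the `μ(k,i) m(k,i)`, where `m(k,i)` is the multiplicity of any other curve `F` at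
`(-k,i)`, is at most `δ` times the weighted degree of `F`. With the derivative of `G` for `F` the
last statement gives the adjunction inequality: the sum of all `μ(k,i)^2` is at most
`ν δ^2 + (R - ν) δ`. By Cauchy's inequality the left side is at least `H_R δ^2`, so that `δ` is
bounded by `(R - ν) / (H_R - ν)` and the `μ(k,i)` are nearly equal to `δ / k`.

On the other hand the second power sums give a polynomial `V` of degree `n ≤ 2 ν - 2` with
`(k - 1)^2 V(k - 2) = ∑ μ(k,i) i (k - 1 - i)`, `0 ≤ V(k - 2) ≤ δ / 4` for `2 ≤ k ≤ R` and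
`V(0) = 0`. Its coefficients are in a lattice: the leading one is a multiple of
`1 / (n! (n + 1) (n + 2))`, and more precisely of `1/12`, `1/12`, `1/360`, `1/720`, `1/20160`,
`1/60480` for `n = 2, ..., 7`. If `n ≥ 2` then `V(x)` is not near `δ x / (6 (x + 1))`, and the loss
in Cauchy's inequality is larger than the adjunction inequality allows. This is shown by explicit
certificates, which use the leading coefficient (for `R < 80`) and in the most difficult
cases the two leading coefficients. If `n ≤ 1` then `V(k - 2)` is too small, and most of the mass of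
the first rows is at `i = 0` and `i = k - 1`, in contradiction to the bound `2 ν δ` for the sum over
`k` of `μ(k,0) + μ(k,k-1)`.
-/

set_option autoImplicit false

open Finset

namespace Pool.Agent.Results.MP_409a13_co.HarmonicStrength

/-- there is a Steiner system `S(n,q,r)` -/
def Steiner (n q r : ℕ) : Prop :=
  ∃ B : Finset (Finset (Fin n)), (∀ b ∈ B, b.card = q) ∧
    ∀ s : Finset (Fin n), s.card = r → ∃! b, b ∈ B ∧ s ⊆ b

/-- the divisibility condition (D) for `(n,q,r)` -/
def Divisibility (n q r : ℕ) : Prop := ∀ i < r, (q - i).choose (r - i) ∣ (n - i).choose (r - i)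

theorem sum_eq_harmonic (R : ℕ) : (∑ k ∈ Icc 1 R, (1 : ℝ) / k) = harmonic R := by
  rw [harmonic_eq_sum_Icc]
  push_cast
  exact Finset.sum_congr rfl fun k _ => by rw [one_div]

/-- Let `c = 3/5` for `R ≤ 25` and `c = 0` for `R ≥ 26`, and let `ν < 1 + 1/2 + ... + 1/R - c`. There
is `A` such that `n > (q - r) ^ ν` if `r ≥ R`, `q - r ≥ A`, `n > q` and there is a Steiner system
`S(n,q,r)` or (D) holds for `(n,q,r)`. -/
theorem result : ∀ (R : ℕ) (ν : ℝ),
    ν < (∑ k ∈ Icc 1 R, (1 : ℝ) / k) - (if R ≤ 25 then 3 / 5 else 0) →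
    ∃ A : ℕ, ∀ n q r : ℕ, R ≤ r → A ≤ q - r → q < n → Divisibility n q r ∨ Steiner n q r →
      ((q - r : ℕ) : ℝ) ^ ν < n := by
  intro R ν h
  rw [sum_eq_harmonic] at h
  have h' : ν ≤ harmonic R - 3 / 5 ∨ (26 ≤ R ∧ ν < harmonic R) := by
    split_ifs at h with h1
    · exact Or.inl h.le
    · exact Or.inr ⟨by omega, by linarith⟩
  obtain ⟨A, hA⟩ := Pool.Agent.K9h7.SH.harmonic_all R ν h'
  refine ⟨A + 1, fun n q r hr hq hqn h => hA n q r hr (by omega) hqn ?_⟩
  rcases h with h | ⟨B, hB⟩
  · exact h
  · exact Pool.Agent.R60.Steiner.divCond_of_isSteiner (by omega) hB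

end Pool.Agent.Results.MP_409a13_co.HarmonicStrength
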