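import Pool.Agent.K9h7.SG.Linear3

/-!
# For most block sizes the number of points of `S(n,q,r)` is at least `(q - r) ^ (c r)`

Let `ε > 0`. There is a constant `C` such that for every `R ≥ 1` the set of the `a ≥ 1` for which
there are `r ≥ R` and `n ≤ a ^ ((3/8 - ε) R)`, `n > q = a + r`, with (D) for `(n,q,r)` (or with
a Steiner system `S(n,q,r)`) has upper density at most `C / R`.

Proof. As for `HarmonicStrength` there are coprime divisors `D(k,i)` of `a + k` and of
`n - q - i`, `0 ≤ i < k ≤ R`; each prime `p > R` which divides one of `a + 1, ..., a + R` divides one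
of them. The sum of the squares of `log D(k,i) / log X` is at least the sum over `k ≤ R` and over the
primes `p > R` dividing `a + k` of the squares of `u = log p / log X`. For `p ≤ X ^ θ` this square is
`θ u - u (θ - u)`, and for the larger ones it is at least `θ u`. The sum of the `u (θ - u)` has mean
value `R θ² / 2 + o(R)` and variance at most `R + o(1)` (in the manner of Turán and Kubilius), so
that the sum of the squares is at least `R (θ - θ² / 2 - ε)` for all but `O(X / R)` of the `a ≤ X`;
then `θ → 1/2`. Therefore the auxiliary polynomial exists if `n ≤ a ^ ((3/8 - ε) R)`. Finally a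
polynomial `f` of degree `δ ≥ 2` with `0 ≤ f(-k) < k` and `f(-k)` an integer for `k ≤ R` has
`5 δ + 1 > 2 R` (finite differences with steps `2` and `3`).
-/

set_option autoImplicit false

open Finset

namespace Pool.Agent.Results.MP_409a13_co.LinearStrengthExponent

/-- there is a Steiner system `S(n,q,r)` -/
def Steiner (n q r : ℕ) : Prop :=
  ∃ B : Finset (Finset (Fin n)), (∀ b ∈ B, b.card = q) ∧
    ∀ s : Finset (Fin n), s.card = r → ∃! b, b ∈ B ∧ s ⊆ b

/-- the divisibility condition (D) for `(n,q,r)` -/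
def Divisibility (n q r : ℕ) : Prop := ∀ i < r, (q - i).choose (r - i) ∣ (n - i).choose (r - i)

/-- there are `n`, `q`, `r` with `r ≥ R`, `q - r = a` and `q < n ≤ a ^ ν` such that the divisibility
condition holds for `(n,q,r)` or there is a Steiner system `S(n,q,r)` -/
def Exceptional (R : ℕ) (ν : ℝ) (a : ℕ) : Prop :=
  ∃ n q r : ℕ, R ≤ r ∧ q = r + a ∧ q < n ∧ (n : ℝ) ≤ (a : ℝ) ^ ν ∧
    (Divisibility n q r ∨ Steiner n q r)

open Classical in
/-- For each `ε > 0` there is `C` such that for every `R ≥ 1` and all large `X` the number of the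
`a ≤ X` which are exceptional for `R` and the exponent `(3/8 - ε) R` is at most `(C / R) X`. -/
theorem result : ∀ ε : ℝ, 0 < ε → ∃ C : ℝ, ∀ R : ℕ, 1 ≤ R → ∃ X₀ : ℕ, ∀ X : ℕ, X₀ ≤ X →
    (#{a ∈ Icc 1 X | Exceptional R ((3 / 8 - ε) * R) a} : ℝ) ≤ C / R * X := by
  intro ε hε
  obtain ⟨C, hC⟩ := Pool.Agent.K9h7.SG.linear_main ε hε
  refine ⟨C, fun R hR => ?_⟩
  obtain ⟨X₀, h⟩ := hC R hR
  refine ⟨X₀, fun X hX => le_trans ?_ (h X hX)⟩
  refine Nat.cast_le.2 (card_le_card ?_)
  intro a ha
  rw [mem_filter] at ha ⊢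
  obtain ⟨h1, n, q, r, h2, rfl, h3, h4, h5⟩ := ha
  refine ⟨h1, n, r, h2, h3, h4, ?_⟩
  rcases h5 with h5 | ⟨B, hB⟩
  · exact h5
  · exact Pool.Agent.R60.Steiner.divCond_of_isSteiner (by omega) hB

end Pool.Agent.Results.MP_409a13_co.LinearStrengthExponent
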