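import Pool.Agent.K9h7.SG.Typical7

/-!
# The number of the parameters of Steiner systems

Let `R ≥ 2` and `η, ε > 0`. At most `C (X Q ^ (ε - (R - 1)) + X ^ (1 / v + ε))` triples `(n,q,r)`
with `n ≤ X`, `R ≤ r < q < n`, `q ≥ Q` and `q - r ≥ q ^ η` are the parameters of a Steiner system.
Here `v = 2` for `R ≤ 3`, `v = 25/12` for `4 ≤ R ≤ 7`, and `v` is `1 + 1/2 + ... + 1/R - 3/5` for
`8 ≤ R ≤ 25` and `1 + 1/2 + ... + 1/R` for `R ≥ 26`.

Proof. Let `a = q - r ≥ q ^ η` and `s = ⌈1/η⌉`, so that `q ≤ a ^ s`. By (D) the numbers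
`a + 1, ..., a + R'`, `R' ≤ r`, have coprime divisors, whose product is at least a constant times
`a ^ R'`, modulo which `n - q` has one of `a ^ o(1)` given residues; hence there are at most
`a ^ o(1) (X / a ^ R' + 1)` values of `n - q`. Let `K` be large. There is `N` such that
`n > a ^ K` if `r ≥ N` and `a ≥ N` (see `HarmonicStrength`). If `r < N` and `a = O(X ^ (1 / v))` we
use `R' = R`: the sum over `a ≥ Q / 2` is the stated bound. If `r ≥ N` we use `R'` large,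
`a ^ K ≤ X`, `a ≥ Q ^ η` and `r < a ^ s`. Larger values of `a` do not occur for `4 ≤ R ≤ 7` by
`StrengthFour` and for `R ≥ 8` by `HarmonicStrength`. If `R ≤ 3`, `r < N` and `a > X ^ (1/2)`, then
`n - r + 1 = (a + 1) t` where `t < X ^ (1/2)` and `a + 2` divides `t (t - 1)`.
-/

set_option autoImplicit false

open Finset

namespace Pool.Agent.Results.MP_409a13_co.ParameterCount

/-- there is a Steiner system `S(n,q,r)` -/
def Steiner (n q r : ℕ) : Prop :=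
  ∃ B : Finset (Finset (Fin n)), (∀ b ∈ B, b.card = q) ∧
    ∀ s : Finset (Fin n), s.card = r → ∃! b, b ∈ B ∧ s ⊆ b

/-- the divisibility condition (D) for `(n,q,r)` -/
def Divisibility (n q r : ℕ) : Prop := ∀ i < r, (q - i).choose (r - i) ∣ (n - i).choose (r - i)

/-- `R ≤ r < q < n`, `q ≥ Q`, `q - r ≥ q ^ η`, and there is a Steiner system `S(n,q,r)`, or (D)
holds and, if `4 ≤ R ≤ 7`, also Cameron's inequality `n - q ≥ (q - r + 1) ^ 2` holds -/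
def Exceptional (R Q : ℕ) (η : ℝ) (n q r : ℕ) : Prop :=
  R ≤ r ∧ r < q ∧ q < n ∧ Q ≤ q ∧ (q : ℝ) ^ η ≤ (q : ℝ) - r ∧
    (Steiner n q r ∨ (Divisibility n q r ∧ (4 ≤ R → R ≤ 7 → (q - r + 1) ^ 2 ≤ n - q)))

/-- the exponent: `2` for `R ≤ 3`, `25/12` for `4 ≤ R ≤ 7`, `1 + 1/2 + ... + 1/R - 3/5` for
`8 ≤ R ≤ 25` and `1 + 1/2 + ... + 1/R` for `R ≥ 26` -/
noncomputable def v (R : ℕ) : ℝ :=
  if R ≤ 3 then 2 else if R ≤ 7 then 25 / 12 else
    (∑ k ∈ Icc 1 R, (1 : ℝ) / k) - (if R ≤ 25 then 3 / 5 else 0)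

theorem sum_eq_harmonic (R : ℕ) : (∑ k ∈ Icc 1 R, (1 : ℝ) / k) = harmonic R := by
  rw [harmonic_eq_sum_Icc]
  push_cast
  exact Finset.sum_congr rfl fun k _ => by rw [one_div]

theorem v_pos (R : ℕ) : 0 < v R := by
  unfold v
  split_ifs with h1 h2 h3
  · norm_num
  · norm_num
  · have : (1 : ℝ) ≤ ∑ k ∈ Icc 1 R, (1 : ℝ) / k := by
      have h := Finset.single_le_sum (f := fun k : ℕ => (1 : ℝ) / k) (fun k _ => by positivity)
        (mem_Icc.2 ⟨le_rfl, by omega⟩ : (1 : ℕ) ∈ Icc 1 R)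
      simpa using h
    linarith
  · have : (1 : ℝ) ≤ ∑ k ∈ Icc 1 R, (1 : ℝ) / k := by
      have h := Finset.single_le_sum (f := fun k : ℕ => (1 : ℝ) / k) (fun k _ => by positivity)
        (mem_Icc.2 ⟨le_rfl, by omega⟩ : (1 : ℕ) ∈ Icc 1 R)
      simpa using h
    linarith

/-- what is used of the triples -/
def E (R n q r : ℕ) : Prop :=
  Pool.Agent.R60.Steiner.DivCond n q r ∧ (4 ≤ R → R ≤ 7 → (q - r + 1) ^ 2 ≤ n - q)

open Classical Pool.Agent.K9h7.SG in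
/-- the triples with `q - r` larger than a constant times `X ^ (1 / w)` -/
theorem tail (R : ℕ) (hR : 2 ≤ R) (w : ℝ) (hw0 : 0 < w) (hw : w < v R) :
    ∃ c : ℝ, 0 < c ∧ ∃ A : ℕ, ∀ (N : ℕ) (ε : ℝ), 0 < ε → ∃ C0 : ℝ, 0 ≤ C0 ∧ ∀ X : ℕ, 1 ≤ X →
      (((box X).filter (tailE (E R) R A N ((X / c) ^ (1 / w)))).card : ℝ) ≤
        C0 * (X : ℝ) ^ (1 / w + ε) := by
  unfold v at hw
  split_ifs at hw with h1 h2 h3
  · exact ⟨1, one_pos, 0, fun N ε hε => tail_low (fun _ _ _ h => h.1) hR hw0 hw.le N ε hε⟩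
  · refine ⟨1 / 60, by norm_num, 0, fun N ε _ => tail_of_sep (by norm_num) hw0
      (fun n q r hr _ hrq hqn hE => ?_) N ε⟩
    have hb := hE.2 (by omega) h2
    have hnc := noCarry_of_div hrq.le hqn.le hE.1
    have hmain := four_main hnc (by omega) (by omega) hb
    have ha : (1 : ℝ) ≤ ((q - r : ℕ) : ℝ) := by exact_mod_cast (by omega : 1 ≤ q - r)
    have e1 : ((q - r : ℕ) : ℝ) ^ w ≤ ((q - r : ℕ) : ℝ) ^ ((25 : ℝ) / 12) :=
      Real.rpow_le_rpow_of_exponent_le ha hw.le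
    have hbn : ((n - q : ℕ) : ℝ) ≤ n := by exact_mod_cast Nat.sub_le _ _
    have hb0 : (0 : ℝ) < ((n - q : ℕ) : ℝ) := by
      have : 0 < (q - r + 1) ^ 2 := by positivity
      exact_mod_cast (by omega : 0 < n - q)
    have e2 : ((q - r : ℕ) : ℝ) ^ ((25 : ℝ) / 12) ≤ 60 * ((n - q : ℕ) : ℝ) := by
      by_contra hcon
      push Not at hcon
      have h1 : 60 * ((n - q : ℕ) : ℝ) ≤ ((q - r : ℕ) : ℝ) ^ ((25 : ℝ) / 12) := hcon.le
      have h2 := pow_le_pow_left₀ (by positivity) h1 12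
      have h3 : (((q - r : ℕ) : ℝ) ^ ((25 : ℝ) / 12)) ^ 12 = ((q - r : ℕ) : ℝ) ^ 25 := by
        rw [← Real.rpow_natCast, ← Real.rpow_mul (Nat.cast_nonneg _), ← Real.rpow_natCast]
        norm_num
      rw [h3, mul_pow] at h2
      have hb12 : (0 : ℝ) < ((n - q : ℕ) : ℝ) ^ 12 := by positivity
      have h4 : (12 ^ 12 * 2 ^ 4 * 3 ^ 3 * 545794 : ℝ) < 60 ^ 12 := by norm_num
      have h5 := mul_lt_mul_of_pos_right h4 hb12
      linarith
    linarith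
  · rw [sum_eq_harmonic] at hw
    obtain ⟨A, hA⟩ := Pool.Agent.K9h7.SH.harmonic_all R w (Or.inl hw.le)
    exact ⟨1, one_pos, A, fun N ε _ => tail_of_sep one_pos hw0
      (fun n q r hr hq _ hqn hE => by rw [one_mul]; exact (hA n q r hr hq hqn hE.1).le) N ε⟩
  · rw [sum_eq_harmonic] at hw
    obtain ⟨A, hA⟩ := Pool.Agent.K9h7.SH.harmonic_all R w (Or.inr ⟨by omega, by linarith⟩)
    exact ⟨1, one_pos, A, fun N ε _ => tail_of_sep one_pos hw0
      (fun n q r hr hq _ hqn hE => by rw [one_mul]; exact (hA n q r hr hq hqn hE.1).le) N ε⟩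

open Classical in
/-- For all `R ≥ 2` and `η, ε > 0` there is `C` such that for all `X, Q ≥ 1` at most
`C (X Q ^ (ε - (R - 1)) + X ^ (1 / v R + ε))` of the triples `(n,q,r)` with `n ≤ X` are exceptional
for `R`, `Q`, `η`. -/
theorem result : ∀ R : ℕ, 2 ≤ R → ∀ η : ℝ, 0 < η → ∀ ε : ℝ, 0 < ε → ∃ C : ℝ, ∀ X Q : ℕ,
    1 ≤ X → 1 ≤ Q →
      (#{t ∈ Icc 1 X ×ˢ Icc 1 X ×ˢ Icc 1 X | Exceptional R Q η t.1 t.2.1 t.2.2} : ℝ) ≤
        C * (X * (Q : ℝ) ^ (ε - (R - 1)) + (X : ℝ) ^ (1 / v R + ε)) := by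
  intro R hR η hη ε hε
  have hv := v_pos R
  -- an exponent slightly below `v R`
  set w : ℝ := (1 / v R + ε / 2)⁻¹ with hw
  have hw0 : 0 < w := by positivity
  have hwv : w < v R := by
    rw [hw]
    have h1 : (v R)⁻¹ < 1 / v R + ε / 2 := by rw [one_div]; linarith
    calc (1 / v R + ε / 2)⁻¹ < ((v R)⁻¹)⁻¹ := inv_strictAnti₀ (by positivity) h1
      _ = v R := inv_inv _
  have hw1 : 1 / w + ε / 2 = 1 / v R + ε := by
    rw [hw, one_div (1 / v R + ε / 2)⁻¹, inv_inv]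
    ring
  obtain ⟨c, hc, A, htail⟩ := tail R hR w hw0 hwv
  obtain ⟨C, h⟩ := Pool.Agent.K9h7.SG.count_main R hR η (ε / 2) w c hη (by positivity) hw0 hc A
    (E R) (fun _ _ _ h => h.1) htail
  refine ⟨|C|, fun X Q hX hQ => ?_⟩
  have hX1 : (1 : ℝ) ≤ X := by exact_mod_cast hX
  have hQ1 : (1 : ℝ) ≤ Q := by exact_mod_cast hQ
  have h2 := h X Q hX hQ
  rw [hw1] at h2
  have h3 : (X : ℝ) * (Q : ℝ) ^ (ε / 2 - (R - 1)) + (X : ℝ) ^ (1 / v R + ε) ≤
      X * (Q : ℝ) ^ (ε - (R - 1)) + (X : ℝ) ^ (1 / v R + ε) := by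
    refine add_le_add (mul_le_mul_of_nonneg_left ?_ (by positivity)) le_rfl
    exact Real.rpow_le_rpow_of_exponent_le hQ1 (by linarith)
  have h4 : C * ((X : ℝ) * (Q : ℝ) ^ (ε / 2 - (R - 1)) + (X : ℝ) ^ (1 / v R + ε)) ≤
      |C| * (X * (Q : ℝ) ^ (ε - (R - 1)) + (X : ℝ) ^ (1 / v R + ε)) :=
    (mul_le_mul_of_nonneg_right (le_abs_self C) (by positivity)).trans
      (mul_le_mul_of_nonneg_left h3 (abs_nonneg C))
  refine le_trans ?_ (h2.trans h4)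
  refine Nat.cast_le.2 (card_le_card ?_)
  rintro ⟨n, q, r⟩ hn
  rw [mem_filter] at hn ⊢
  obtain ⟨g1, g2, g3, g4, g5, g6, g7⟩ := hn
  simp only at g2 g3 g4 g5 g6 g7
  refine ⟨g1, g2, g3, g4, g5, ?_, ?_, fun g8 g9 => ?_⟩
  · simp only
    rw [Nat.cast_sub g3.le]
    exact g6
  · rcases g7 with ⟨B, hB⟩ | g7
    · exact Pool.Agent.R60.Steiner.divCond_of_isSteiner (by simp only; omega) hB
    · exact g7.1
  · rcases g7 with ⟨B, hB⟩ | g7
    · have h1 := Pool.Agent.R60.Steiner.fisher (B := B) hB (by omega) g3.le g4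
      have e : (q - r + 1) * (q - r + 2) = (q - r + 1) ^ 2 + (q - r + 1) := by ring
      simp only
      omega
    · exact g7.2 g8 g9

end Pool.Agent.Results.MP_409a13_co.ParameterCount
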