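import Pool.Agent.K9h7.SG.Four
import Pool.Agent.K9h7.SG.Omega

/-!
# Every Steiner system `S(n,q,r)` with `4 ≤ r ≤ q < n` has more than `(q - r) ^ (25/12) / 60` points

Proof. Let `a = q - r`, `b = n - q`. By Cameron's inequality `b ≥ (a + 1) ^ 2`. By the divisibility
condition (D), `a + k`, for `k = 1, 2, 3, 4`, is up to a divisor of `12` the product of coprime
numbers `D(k,i)`, `0 ≤ i < k`, such that `D(k,i)` divides `b - i`. Let
`Q = y (x + y + 1) (2 y - (x + 1) (x + 2)) ^ 2 (2 y + (x + 1) (x + 4)) ^ 2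
  (9 y ^ 2 + 9 (x + 1) y + (x + 1) ^ 2 (x + 2) (x + 3)) ^ 3`.
This polynomial has the multiplicities `12, 6, 4, 3` at the points `(-k,i)`, `0 ≤ i < k`, for
`k = 1, 2, 3, 4`. Hence `Q(a,b)` is divisible by the number
`D(1,0) ^ 12 (D(2,0) D(2,1)) ^ 6 (D(3,0) D(3,1) D(3,2)) ^ 4 (D(4,0) D(4,1) D(4,2) D(4,3)) ^ 3`, which
is at least a constant times `a ^ (12 + 6 + 4 + 3) = a ^ 25`. All factors of `Q(a,b)` are positive
and `Q(a,b) = O(b ^ 12)` since `b ≥ (a + 1) ^ 2`. Thus `a ^ 25 = O(b ^ 12)`.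
-/

set_option autoImplicit false

open Finset

namespace Pool.Agent.Results.MP_409a13_co.StrengthFour

/-- there is a Steiner system `S(n,q,r)` -/
def Steiner (n q r : ℕ) : Prop :=
  ∃ B : Finset (Finset (Fin n)), (∀ b ∈ B, b.card = q) ∧
    ∀ s : Finset (Fin n), s.card = r → ∃! b, b ∈ B ∧ s ⊆ b

/-- the divisibility condition (D) for `(n,q,r)` -/
def Divisibility (n q r : ℕ) : Prop := ∀ i < r, (q - i).choose (r - i) ∣ (n - i).choose (r - i)

/-- If `r ≥ 4`, `n > q` and there is a Steiner system `S(n,q,r)`, or (D) holds and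
`n - q ≥ (q - r + 1) ^ 2`, then `(q - r) ^ (25/12) < 60 n`. -/
theorem result : ∀ n q r : ℕ, 4 ≤ r → q < n →
    Steiner n q r ∨ (Divisibility n q r ∧ (q - r + 1) ^ 2 ≤ n - q) →
      ((q - r : ℕ) : ℝ) ^ ((25 : ℝ) / 12) < 60 * n := by
  intro n q r hr hqn h
  have hn0 : (0 : ℝ) < n := by exact_mod_cast (by omega : 0 < n)
  rcases Nat.lt_or_ge r q with hrq | hrq
  · have key : Pool.Agent.R60.Steiner.NoCarry (q - r) (n - q) r ∧ (q - r + 1) ^ 2 ≤ n - q := by
      rcases h with ⟨B, hB⟩ | ⟨hD, hb⟩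
      · refine ⟨Pool.Agent.K9h7.SG.noCarry_of_steiner hrq.le hqn.le ⟨B, hB⟩, ?_⟩
        have h1 := Pool.Agent.R60.Steiner.fisher (B := B) hB (by omega) hrq.le hqn
        have e : (q - r + 1) * (q - r + 2) = (q - r + 1) ^ 2 + (q - r + 1) := by ring
        omega
      · exact ⟨Pool.Agent.K9h7.SG.noCarry_of_div hrq.le hqn.le hD, hb⟩
    obtain ⟨hnc, hb⟩ := key
    have hmain := Pool.Agent.K9h7.SG.four_main hnc hr (by omega) hb
    set a := q - r with ha
    set b := n - q with hbd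
    have hbn : (b : ℝ) ≤ n := by exact_mod_cast Nat.sub_le _ _
    have hb0 : (0 : ℝ) < b := by
      have : 0 < (a + 1) ^ 2 := by positivity
      exact_mod_cast (by omega : 0 < b)
    by_contra hcon
    push Not at hcon
    have h1 : 60 * (b : ℝ) ≤ (a : ℝ) ^ ((25 : ℝ) / 12) := by linarith
    have h2 := pow_le_pow_left₀ (by positivity) h1 12
    have h3 : ((a : ℝ) ^ ((25 : ℝ) / 12)) ^ 12 = (a : ℝ) ^ 25 := by
      rw [← Real.rpow_natCast, ← Real.rpow_mul (Nat.cast_nonneg _), ← Real.rpow_natCast]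
      norm_num
    rw [h3, mul_pow] at h2
    have hb12 : (0 : ℝ) < (b : ℝ) ^ 12 := by positivity
    have h4 : (12 ^ 12 * 2 ^ 4 * 3 ^ 3 * 545794 : ℝ) < 60 ^ 12 := by norm_num
    have h5 := mul_lt_mul_of_pos_right h4 hb12
    linarith
  · rw [Nat.sub_eq_zero_of_le hrq, Nat.cast_zero, Real.zero_rpow (by norm_num)]
    positivity

end Pool.Agent.Results.MP_409a13_co.StrengthFour
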